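import Pool.Agent.H670R2.SlPoly
import Pool.Agent.H670R2.SlMem

/-!
# SLOPE NUMBER is complete for the existential theory of the reals

The decision problem SLOPE NUMBER (given a finite simple graph `G` and a number `k`, is there a
straight-line drawing of `G`, crossings allowed, whose edges have at most `k` distinct slopes) is
`∃ℝ`-complete under polynomial-time many-one reductions.

Sketch of the hardness proof.

* *Hinges* (`SlBone`).  In a drawing with `k` slopes every vertex has at most `2k` edges, at most
  one in each of the `2k` directions (number the directions cyclically by `ℤ/2k`; the directions
  `z` and `z + k` are opposite).  If two vertices, the hubs, have `2k - 2` common neighbours, then
  only the two directions of the line through the hubs are free at the hubs, and they leave in a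
  prescribed way: the two free directions, one at each hub, differ by at most one step.
* *Chains* (`SlTips`, `SlSound`).  A closed chain of `k` sides joined by `k - 3` hinges and three
  plain tips turns by one step in the same sense at each hinge, so it uses all `k` slopes in
  circular order.  Consecutive chains share a hinge, and so the sides of all chains are labelled
  consistently; every chain has sides of `k` known labels in known circular order.
* *Filters* (`SlSound2`).  A vertex `F f` is joined to hubs of chains by edges whose directions
  cannot be parallel to the `f`-th label; so the two further edges of `F f` must use the line of
  the `f`-th label, in opposite directions.  Hence the two points joined by them are on a line of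
  the prescribed label.
* *Quadrangles* (`SlQuad`, `SlArith`, `SlPos`).  Four points all of whose six connecting lines
  have prescribed labels force relations `t b * t e = t f * t c` and `t b = t c + t f` between the
  slopes (horizontal and vertical being two of the labels).  These relations simulate positive
  arithmetic with all values in prescribed disjoint ranges (one block of labels for each use of a
  variable), and the existential theory of the reals reduces to such systems.
* *Completeness* (`SlStar`, `SlTok`, `SlPlace`, `SlClass`, `SlComp`).  If the system is solvable,
  then the graph is drawn with `k` slopes: all chains and filters are placed one after the other,
  the lengths of the edges being chosen generically; an incidence of a vertex with an edge is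
  excluded by a connectivity argument, direction by direction.
* The map is computable in polynomial time (`SlPoly`).

Membership in `∃ℝ` is proved in `SlMem`.
-/

namespace Pool.Agent.Results.MP_09bf15_lc.SlopeNumberComplete

open Pool.Agent.NPC Pool.Agent.NPC.ER Pool.Agent.H670R2

/-- SLOPE NUMBER is `∃ℝ`-complete under polynomial-time many-one reductions. -/
theorem result : ERComplete SLOPENUMBER :=
  ⟨Pool.Agent.NPC.H670R2.slope_mem, Pool.Agent.NPC.H670R2.slope_hard⟩

end Pool.Agent.Results.MP_09bf15_lc.SlopeNumberComplete
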